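import Mathlib

/-! # Steinhaus' problem near the ball: definitions (project STE, MP_34631e_gt) -/

open MeasureTheory Filter Topology

namespace Pool.Agent.Lib_helper15.STE

/-- three dimensional Euclidean space -/
abbrev E3 : Type := EuclideanSpace ℝ (Fin 3)

/-- the Euclidean plane -/
abbrev E2 : Type := EuclideanSpace ℝ (Fin 2)

/-! ## the geometric quantities -/

/-- Minkowski content: the lower limit of (volume of the outer `ε`-shell of `K`)/`ε` as `ε → 0+`;
for convex bodies this is the surface area (n = 3) or the perimeter (n = 2). -/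
noncomputable def bd {n : ℕ} (K : Set (EuclideanSpace ℝ (Fin n))) : ENNReal :=
  liminf (fun ε : ℝ => volume (Metric.cthickening ε K \ K) / ENNReal.ofReal ε) (𝓝[>] (0:ℝ))

/-- the numbers `A / L ^ 2` of the plane sections of `K` of positive area; a plane is given by an
isometric embedding `P` of the Euclidean plane, the section is `P ⁻¹' K` -/
def iot (K : Set E3) : Set ℝ :=
  {x | ∃ P : E2 →ᵃⁱ[ℝ] E3, 0 < volume (P ⁻¹' K) ∧
    x = (volume (P ⁻¹' K)).toReal / (bd (P ⁻¹' K)).toReal ^ 2}

/-! ## analysis on the sphere -/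

/-- the point of the unit sphere with height `τ` and longitude `φ` -/
noncomputable def pt (τ φ : ℝ) : E3 :=
  !₂[√(1 - τ ^ 2) * Real.cos φ, √(1 - τ ^ 2) * Real.sin φ, τ]

/-- the rotation invariant probability measure on the unit sphere, as a measure on `E3` -/
noncomputable def sig : Measure E3 :=
  ENNReal.ofReal (3 / (4 * Real.pi)) •
    (volume.restrict (Metric.ball (0 : E3) 1)).map (fun x => ‖x‖⁻¹ • x)

/-- infinitesimal rotation about the axis `ν` : the cross product `ν × x` -/
def cr (ν x : E3) : E3 :=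
  !₂[ν 1 * x 2 - ν 2 * x 1, ν 2 * x 0 - ν 0 * x 2, ν 0 * x 1 - ν 1 * x 0]

/-- unit coordinate vectors -/
noncomputable def e (i : Fin 3) : E3 := EuclideanSpace.single i 1

/-- derivative of `F` under the rotation about the axis `ν` -/
noncomputable def XX (ν : E3) (F : E3 → ℝ) (x : E3) : ℝ := fderiv ℝ F x (cr ν x)

/-- `∫ |∇F|²` -/
noncomputable def GG (F : E3 → ℝ) : ℝ := ∫ x, ‖fderiv ℝ F x‖ ^ 2 ∂sig

/-- `∫ F²` -/
noncomputable def ff (F : E3 → ℝ) : ℝ := ∫ x, F x ^ 2 ∂sig

/-- `D(F) = (3/2)(∫|∇F|² - 2∫F²)` -/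
noncomputable def DD (F : E3 → ℝ) : ℝ := 3 / 2 * (GG F - 2 * ff F)

/-- mean over a circle -/
noncomputable def av (h : ℝ → ℝ) : ℝ := (2 * Real.pi)⁻¹ * ∫ φ in (-Real.pi)..Real.pi, h φ

/-- mean over the circle of height `τ` -/
noncomputable def cm (F : E3 → ℝ) (τ : ℝ) : ℝ := av (fun φ => F (pt τ φ))

/-- integral over the heights in `[a,b]` of the mean of the squared derivative along the circle -/
noncomputable def Der (F : E3 → ℝ) (a b : ℝ) : ℝ :=
  ∫ τ in a..b, cm (fun x => XX (e 2) F x ^ 2) τ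

/-- integral over the heights in `[a,b]` of the variance along the circle -/
noncomputable def Var (F : E3 → ℝ) (a b : ℝ) : ℝ :=
  ∫ τ in a..b, (cm (fun x => F x ^ 2) τ - cm F τ ^ 2)

/-- admissible functions: homogeneous of degree 0 and Lipschitz on the unit sphere -/
structure Adm (F : E3 → ℝ) : Prop where
  hom : ∀ (x : E3) (r : ℝ), 0 < r → F (r • x) = F x
  lip : ∃ C : ℝ, ∀ x y : E3, ‖x‖ = 1 → ‖y‖ = 1 → |F x - F y| ≤ C * ‖x - y‖

end Pool.Agent.Lib_helper15.STE
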