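import Pool.Agent.Lib_helper15.STE.Defs

/-! # Steinhaus' problem near the ball: definitions of the geometric half (project STE) -/

open MeasureTheory Filter Topology

namespace Pool.Agent.Lib_helper15.STE

/-- gauge functions (positively homogeneous, subadditive) `η`-close to the norm -/
structure Gau (p : E3 → ℝ) (η : ℝ) : Prop where
  sub : ∀ x y, p (x + y) ≤ p x + p y
  hom : ∀ (x : E3) (t : ℝ), 0 ≤ t → p (t • x) = t * p x
  lo : ∀ x, (1 - η) * ‖x‖ ≤ p x
  up : ∀ x, p x ≤ (1 + η) * ‖x‖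

/-- the unit body of a gauge function -/
def Kp (p : E3 → ℝ) : Set E3 := {x | p x ≤ 1}

/-- half of (square of the radial function minus 1), extended homogeneously of degree 0 -/
noncomputable def FF (p : E3 → ℝ) (x : E3) : ℝ := ((‖x‖ / p x) ^ 2 - 1) / 2

/-- the plane of height `t` -/
def emb (t : ℝ) (y : E2) : E3 := !₂[y 0, y 1, t]

/-- the section at height `t` -/
def Mp (p : E3 → ℝ) (t : ℝ) : Set E2 := {y | p (emb t y) ≤ 1}

/-- cylindrical coordinates -/
noncomputable def cy (r φ t : ℝ) : E3 := !₂[r * Real.cos φ, r * Real.sin φ, t]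

/-- radial function of the section at height `t` -/
noncomputable def Rr (p : E3 → ℝ) (t φ : ℝ) : ℝ := sSup {r : ℝ | 0 ≤ r ∧ p (cy r φ t) ≤ 1}

/-- height of the direction of the boundary point of the section at height `t`, longitude `φ` -/
noncomputable def Sp (p : E3 → ℝ) (t φ : ℝ) : ℝ := t / √(Rr p t φ ^ 2 + t ^ 2)

/-- integrand of the perimeter of the section -/
noncomputable def Lam (p : E3 → ℝ) (t φ : ℝ) : ℝ :=
  Rr p t φ * √(1 + (fderiv ℝ p (pt (Sp p t φ) φ) !₂[-Real.sin φ, Real.cos φ, 0] /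
    fderiv ℝ p (pt (Sp p t φ) φ) !₂[Real.cos φ, Real.sin φ, 0]) ^ 2)

/-- all horizontal sections of `Kp p` with `|t| ≤ 1 - κ` fail to be out of round -/
def Hyp (p : E3 → ℝ) (κ : ℝ) : Prop :=
  ∀ t : ℝ, |t| ≤ 1 - κ → (volume (Kp p)).toReal ^ 2 / (bd (Kp p)).toReal ^ 3 ≤
    4 * Real.pi / 9 * ((volume (Mp p t)).toReal / (bd (Mp p t)).toReal ^ 2) ^ 2

end Pool.Agent.Lib_helper15.STE
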